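import Pool.Agent.Helper69.QG.St4

/-!
Project QD, part C, geometric half (MP_d112a4_gt), module SLP: the folding map solves a Beltrami
equation.
-/

set_option autoImplicit false

open Complex Set Metric MeasureTheory Filter Topology
open scoped ComplexConjugate

namespace Pool.Agent.Helper24.QG

open Pool.Agent.Helper69.QG
open Pool.Agent.Helper35.PM
open Pool.Agent.Helper68.QC (dz dzb WD Sol Bel L2 Tst)

private theorem slp_meas (F : ℂ → ℂ) : Measurable (dz F) ∧ Measurable (dzb F) := by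
  have h1 : Measurable (fun z => fderiv ℝ F z 1) := measurable_fderiv_apply_const ℝ F 1
  have h2 : Measurable (fun z => fderiv ℝ F z Complex.I) :=
    measurable_fderiv_apply_const ℝ F Complex.I
  constructor
  · exact (h1.sub (measurable_const.mul h2)).div_const 2
  · exact (h1.add (measurable_const.mul h2)).div_const 2

/-- SLP: the folding map solves a Beltrami equation -/
theorem cSLP (lps : St_LPS) (tnl : St_TNL) (dtl : St_DTL) (wlp : St_WLP) : St_SLP := by
  classical
  intro Psi hPsi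
  set F : ℂ → ℂ := PsE Psi with hF
  obtain ⟨m1, m2⟩ := slp_meas F
  have h2 : 0 ≤ Real.sqrt 2 - 1 := by
    have : (1 : ℝ) ≤ Real.sqrt 2 := by
      rw [Real.one_le_sqrt]
      norm_num
    linarith
  refine ⟨fun z => if dz F z ≠ 0 ∧ ‖dzb F z‖ ≤ (Real.sqrt 2 - 1) * ‖dz F z‖ then
    dzb F z / dz F z else 0, ⟨?_, ?_⟩, dz F, dzb F, ?_, ?_⟩
  · refine Measurable.ite ?_ (m2.div m1) measurable_const
    exact (m1 (measurableSet_singleton 0).compl).inter
      (measurableSet_le m2.norm (measurable_const.mul m1.norm))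
  · intro z
    split_ifs with h
    · rw [norm_div, div_le_iff₀ (norm_pos_iff.2 h.1)]
      exact h.2
    · rw [norm_zero]
      exact h2
  · refine wlp (ball (0 : ℂ) 1) F isOpen_ball ?_
    intro K hK hKc
    rcases K.eq_empty_or_nonempty with h | h
    · refine ⟨0, fun x hx => ?_⟩
      rw [h] at hx
      exact absurd hx (notMem_empty x)
    · obtain ⟨z0, hz0, hmax⟩ := hKc.exists_isMaxOn h continuous_norm.continuousOn
      obtain ⟨L, -, hL⟩ := lps Psi hPsi ‖z0‖ (mem_ball_zero_iff.1 (hK hz0))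
      exact ⟨L, fun x hx y hy => hL x y (hmax hx) (hmax hy)⟩
  · rw [ae_restrict_iff' measurableSet_ball]
    have h3 : ∀ᵐ z : ℂ, z ∉ {z : ℂ | ∃ h : z ∈ ball (0 : ℂ) 1, ¬ ∃ w : W, act w ⟨z, h⟩ ∈ Po} :=
      measure_eq_zero_iff_ae_notMem.1 tnl
    filter_upwards [h3] with z hz hzb
    have h4 : ∃ w : W, act w ⟨z, hzb⟩ ∈ Po := by
      by_contra hcon
      exact hz ⟨hzb, hcon⟩
    obtain ⟨w, hw⟩ := h4
    obtain ⟨-, g1, g2⟩ := dtl Psi hPsi w ⟨z, hzb⟩ hw
    have g1' : dz F z ≠ 0 := g1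
    have g2' : ‖dzb F z‖ ≤ (Real.sqrt 2 - 1) * ‖dz F z‖ := g2
    rw [if_pos ⟨g1', g2'⟩, div_mul_cancel₀ _ g1']

end Pool.Agent.Helper24.QG
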